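import Mathlib

/-!
Definitions for the Hikita-Nakajima statement (MP_1206ce_ag).
Alexander-Spanier cochains, Borel constructions, Nakajima quiver varieties and the
Braverman-Finkelberg-Nakajima convolution algebra in the based polynomial loop model.
-/

open scoped Topology

noncomputable section

namespace Pool.Agent.HK

/-! ### Alexander-Spanier cochains on a subset `A` of a space `Y` -/

/-- Cochains of all degrees at once: a `k`-cochain lives on lists of length `k+1`. -/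
abbrev Coch (Y : Type) : Type := List Y → ℂ

/-- The coboundary. -/
def dd {Y : Type} (c : Coch Y) : Coch Y :=
  fun l => ∑ i ∈ Finset.range l.length, (-1 : ℂ) ^ i * c (l.eraseIdx i)

/-- The cup product. -/
def cup {Y : Type} (a b : Coch Y) : Coch Y :=
  fun l => ∑ i ∈ Finset.range l.length, a (l.take (i + 1)) * b (l.drop i)

/-- The unit cochain. -/
def one {Y : Type} : Coch Y := fun l => if l.length = 1 then 1 else 0

/-- Pull-back of cochains. -/
def pb {Y Y' : Type} (f : Y' → Y) (c : Coch Y) : Coch Y' := fun l => c (l.map f)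

/-- The support in `A`: points of `A` near which the cochain does not vanish on `A`. -/
def supp {Y : Type} [TopologicalSpace Y] (A : Set Y) (c : Coch Y) : Set Y :=
  {y | y ∈ A ∧ ∀ U ∈ 𝓝 y, ∃ l : List Y, (∀ z ∈ l, z ∈ A ∧ z ∈ U) ∧ c l ≠ 0}

/-- Finite sums of cochains of degree at least `0`, with compact support when `cpt` holds. -/
def Adm {Y : Type} [TopologicalSpace Y] (cpt : Prop) (A : Set Y) (c : Coch Y) : Prop :=
  c [] = 0 ∧ (∃ N : ℕ, ∀ l : List Y, N < l.length → c l = 0) ∧ (cpt → IsCompact (supp A c))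

/-- Cocycles: the coboundary is locally zero. -/
def Cocycle {Y : Type} [TopologicalSpace Y] (cpt : Prop) (A : Set Y) (c : Coch Y) : Prop :=
  Adm cpt A c ∧ supp A (dd c) = ∅

/-- Cohomologous cochains. -/
def Cohom {Y : Type} [TopologicalSpace Y] (cpt : Prop) (A : Set Y) (a b : Coch Y) : Prop :=
  ∃ e : Coch Y, Adm cpt A e ∧ supp A (a - b - dd e) = ∅

/-- Families of cochains, one for each finite approximation of a Borel construction. -/
abbrev Fam (Y : Type) : Type := ℕ → Coch Y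

/-- Compatible families of cocycles of bounded degree: representatives of equivariant classes. -/
def IsFam {Y : Type} [TopologicalSpace Y] (cpt : Prop) (A : ℕ → Set Y) (a : Fam Y) : Prop :=
  (∀ n, Cocycle cpt (A n) (a n)) ∧ (∀ n, Cohom cpt (A n) (a (n + 1)) (a n)) ∧
    ∃ N : ℕ, ∀ (n : ℕ) (l : List Y), N < l.length → a n l = 0

/-- Equality of equivariant classes. -/
def FamEq {Y : Type} [TopologicalSpace Y] (cpt : Prop) (A : ℕ → Set Y) (a b : Fam Y) : Prop :=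
  ∀ n, Cohom cpt (A n) (a n) (b n)

/-- Homogeneous of cohomological degree `k`. -/
def Homog {Y : Type} (k : ℤ) (a : Fam Y) : Prop :=
  ∀ (n : ℕ) (l : List Y), (l.length : ℤ) ≠ k + 1 → a n l = 0

/-- Levelwise cup product. -/
def cupF {Y : Type} (a b : Fam Y) : Fam Y := fun n => cup (a n) (b n)

/-- Levelwise pull-back. -/
def pbF {Y Y' : Type} (f : Y' → Y) (a : Fam Y) : Fam Y' := fun n => pb f (a n)

/-! ### Borel constructions for products of unitary groups -/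

/-- Unitary matrices that are block diagonal for a labelling of the basis. -/
def KG {V Λ : Type} [Fintype V] [DecidableEq V] (lab : V → Λ) : Set (Matrix V V ℂ) :=
  {u | u ∈ Matrix.unitaryGroup V ℂ ∧ ∀ k l, lab k ≠ lab l → u k l = 0}

/-- Families of vectors of `ℂ^∞` indexed by `V` (the columns). -/
abbrev Fr (V : Type) : Type := ℕ → V → ℂ

/-- Product of Stiefel manifolds: columns in `ℂ^n`, orthonormal within each block. -/
def St {V Λ : Type} [DecidableEq V] (lab : V → Λ) (n : ℕ) : Set (Fr V) :=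
  {e | (∀ j, n ≤ j → e j = 0) ∧ ∀ k l, lab k = lab l →
    ∑ j ∈ Finset.range n, star (e j k) * e j l = if k = l then 1 else 0}

/-- The action `e ↦ e u⁻¹` on frames. -/
def frAct {V : Type} [Fintype V] (u : Matrix V V ℂ) (e : Fr V) : Fr V :=
  fun j => Matrix.vecMul (e j) (star u)

/-- The quotient of `X × frames` by the group `L` acting diagonally. -/
def Bor {V X : Type} [Fintype V] (L : Set (Matrix V V ℂ)) (act : Matrix V V ℂ → X → X) : Type :=
  Quot fun p q : X × Fr V => ∃ u ∈ L, q = (act u p.1, frAct u p.2)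

instance instTopBor {V X : Type} [Fintype V] [TopologicalSpace X] (L : Set (Matrix V V ℂ))
    (act : Matrix V V ℂ → X → X) : TopologicalSpace (Bor L act) :=
  inferInstanceAs (TopologicalSpace (Quot _))

/-- The class of a pair in the Borel quotient. -/
def bmk {V X : Type} [Fintype V] (L : Set (Matrix V V ℂ)) (act : Matrix V V ℂ → X → X)
    (p : X × Fr V) : Bor L act := Quot.mk _ p

/-- The subspace `(S × E)/L` of the Borel quotient. -/
def BS {V X : Type} [Fintype V] (L : Set (Matrix V V ℂ)) (act : Matrix V V ℂ → X → X)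
    (S : Set X) (E : Set (Fr V)) : Set (Bor L act) :=
  {q | ∃ x ∈ S, ∃ e ∈ E, q = bmk L act (x, e)}

/-- The map of Borel quotients induced by an equivariant pair of maps. -/
def bmap {V V' X X' : Type} [Fintype V] [Fintype V'] {L : Set (Matrix V V ℂ)}
    {act : Matrix V V ℂ → X → X} (L' : Set (Matrix V' V' ℂ)) (act' : Matrix V' V' ℂ → X' → X')
    (f : X → X') (g : Fr V → Fr V') (q : Bor L act) : Bor L' act' :=
  bmk L' act' (f (Quot.out q).1, g (Quot.out q).2)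

/-- The trivial action on a point. -/
def ptAct {V : Type} : Matrix V V ℂ → Unit → Unit := fun _ x => x

/-! ### Framed quiver data -/

/-- A framed quiver: vertices `Fin nI` and the framing vertex `none` of dimension one; `V` has
basis `Fin nB` graded by `vt`; the flavour torus of rank `nT` scales the arrow `h` by `wt h`. -/
structure Qv where
  nI : ℕ
  nB : ℕ
  nT : ℕ
  nA : ℕ
  vt : Fin nB → Fin nI
  src : Fin nA → Option (Fin nI)
  tgt : Fin nA → Option (Fin nI)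
  wt : Fin nA → Fin nT → ℤ

/-- Endomorphisms of `V ⊕ ℂ`. -/
abbrev Qv.Mat (Q : Qv) : Type := Matrix (Option (Fin Q.nB)) (Option (Fin Q.nB)) ℂ

/-- One matrix for each arrow. -/
abbrev Qv.Arr (Q : Qv) : Type := Fin Q.nA → Q.Mat

/-- The vertex of a basis vector of `V ⊕ ℂ`. -/
def Qv.vb (Q : Qv) : Option (Fin Q.nB) → Option (Fin Q.nI) := Option.map Q.vt

/-- Tuples with `x h ∈ Hom (V (a h), V (b h))`. -/
def Qv.Hom (Q : Qv) (a b : Fin Q.nA → Option (Fin Q.nI)) : Set Q.Arr :=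
  {x | ∀ h l k, x h l k ≠ 0 → Q.vb l = b h ∧ Q.vb k = a h}

/-- The representation `N`. -/
def Qv.NN (Q : Qv) : Set Q.Arr := Q.Hom Q.src Q.tgt

/-- The complex dimension of `N`. -/
def Qv.dimN (Q : Qv) : ℕ :=
  (Finset.univ.filter fun p : Fin Q.nA × Option (Fin Q.nB) × Option (Fin Q.nB) =>
    Q.vb p.2.1 = Q.tgt p.1 ∧ Q.vb p.2.2 = Q.src p.1).card

/-- The dimension vector. -/
def Qv.dim (Q : Qv) (i : Fin Q.nI) : ℕ := (Finset.univ.filter fun k => Q.vt k = i).card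

/-- Generic cocharacters: off the hyperplanes of the nonzero dimension vectors `d ≤ v`. -/
def Qv.Generic (Q : Qv) (θ : Fin Q.nI → ℤ) : Prop :=
  ∀ d : Fin Q.nI → ℕ, (∀ i, d i ≤ Q.dim i) → d ≠ 0 → ∑ i, θ i * (d i : ℤ) ≠ 0

/-- The character of the flavour torus on the arrow `h`. -/
def Qv.chi (Q : Qv) (t : Fin Q.nT → ℂ) (h : Fin Q.nA) : ℂ := ∏ a, t a ^ Q.wt h a

/-! ### The Nakajima quiver variety and its equivariant cohomology -/

/-- The stability parameter extended to the framing vertex. -/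
def Qv.thb (Q : Qv) (θ : Fin Q.nI → ℤ) (j : Option (Fin Q.nI)) : ℤ :=
  j.elim (-∑ i, θ i * (Q.dim i : ℤ)) θ

/-- The summand of `V ⊕ ℂ` at the vertex `j`. -/
def Qv.Vj (Q : Qv) (j : Option (Fin Q.nI)) : Submodule ℂ (Option (Fin Q.nB) → ℂ) :=
  Submodule.pi {k | Q.vb k ≠ j} fun _ => ⊥

/-- Semistable points of `μ⁻¹(0) ⊆ T^* N` (King's criterion for the framed representation). -/
def Qv.Zss (Q : Qv) (θ : Fin Q.nI → ℤ) : Set (Q.Arr × Q.Arr) :=
  {p | p.1 ∈ Q.NN ∧ p.2 ∈ Q.Hom Q.tgt Q.src ∧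
    (∀ k l, (∑ h, (p.1 h * p.2 h - p.2 h * p.1 h)) (some k) (some l) = 0) ∧
    ∀ S : Submodule ℂ (Option (Fin Q.nB) → ℂ), S = ⨆ j, S ⊓ Q.Vj j →
      (∀ h, ∀ z ∈ S, (p.1 h).mulVec z ∈ S ∧ (p.2 h).mulVec z ∈ S) →
      ∑ j, Q.thb θ j * (Module.finrank ℂ ↥(S ⊓ Q.Vj j) : ℤ) ≤ 0}

/-- Generic stability parameters: every semistable point of `μ⁻¹(0)` is stable. -/
def Qv.Stable (Q : Qv) (θ : Fin Q.nI → ℤ) : Prop :=
  ∀ p ∈ Q.Zss θ, ∀ S : Submodule ℂ (Option (Fin Q.nB) → ℂ), S = ⨆ j, S ⊓ Q.Vj j →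
    (∀ h, ∀ z ∈ S, (p.1 h).mulVec z ∈ S ∧ (p.2 h).mulVec z ∈ S) → S ≠ ⊥ → S ≠ ⊤ →
    ∑ j, Q.thb θ j * (Module.finrank ℂ ↥(S ⊓ Q.Vj j) : ℤ) < 0

/-- The gauge group `∏ GL (V i)`, acting trivially on the framing line. -/
def Qv.GG (Q : Qv) : Set Q.Mat :=
  {g | g.det ≠ 0 ∧ (∀ k l, Q.vb k ≠ Q.vb l → g k l = 0) ∧ g none none = 1}

/-- The orbit space of `G` on pairs of tuples. -/
def Qv.Orb (Q : Qv) : Type :=
  Quot fun p q : Q.Arr × Q.Arr => ∃ g ∈ Q.GG, ∀ h, g * p.1 h = q.1 h * g ∧ g * p.2 h = q.2 h * g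

instance instTopOrb (Q : Qv) : TopologicalSpace Q.Orb :=
  inferInstanceAs (TopologicalSpace (Quot _))

/-- The Nakajima quiver variety `μ⁻¹(0)^{θ-ss}/G`. -/
def Qv.MM (Q : Qv) (θ : Fin Q.nI → ℤ) : Set Q.Orb := {m | ∃ p ∈ Q.Zss θ, m = Quot.mk _ p}

/-- The flavour torus acts on orbits, symplectically. -/
def Qv.actM (Q : Qv) (t : Matrix (Fin Q.nT) (Fin Q.nT) ℂ) (m : Q.Orb) : Q.Orb :=
  Quot.mk _ (fun h => Q.chi (fun a => t a a) h • (Quot.out m).1 h,
    fun h => (Q.chi (fun a => t a a) h)⁻¹ • (Quot.out m).2 h)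

/-- The compact flavour torus. -/
abbrev Qv.FF (Q : Qv) : Set (Matrix (Fin Q.nT) (Fin Q.nT) ℂ) := KG id

/-- Ambient space of the Borel construction of the quiver variety. -/
abbrev Qv.YM (Q : Qv) : Type := Bor Q.FF Q.actM

/-- Ambient space of the classifying space of the flavour torus. -/
abbrev Qv.YF (Q : Qv) : Type := Bor Q.FF ptAct

/-- Approximations of the Borel construction of the quiver variety. -/
def Qv.BM (Q : Qv) (θ : Fin Q.nI → ℤ) (n : ℕ) : Set Q.YM :=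
  BS Q.FF Q.actM (Q.MM θ) (St id n)

/-- Approximations of the classifying space of the flavour torus. -/
def Qv.BF (Q : Qv) (n : ℕ) : Set Q.YF := BS Q.FF ptAct Set.univ (St id n)

/-! ### The BFN space of triples and its convolution algebra -/

/-- Basis of the defining representation of `G × F`. -/
abbrev Qv.Var (Q : Qv) : Type := Fin Q.nB ⊕ Fin Q.nT

/-- Its blocks. -/
def Qv.lab (Q : Qv) : Q.Var → Fin Q.nI ⊕ Fin Q.nT := Sum.map Q.vt id

/-- The maximal compact subgroup `K` of `G × F`. -/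
abbrev Qv.KK (Q : Qv) : Set (Matrix Q.Var Q.Var ℂ) := KG Q.lab

/-- The gauge part of an element of `K`. -/
def Qv.gau (Q : Qv) (u : Matrix Q.Var Q.Var ℂ) : Q.Mat := fun a b =>
  a.elim (b.elim 1 fun _ => 0) fun k => b.elim 0 fun l => u (Sum.inl k) (Sum.inl l)

/-- The action of `K` on `N`. -/
def Qv.actN (Q : Qv) (u : Matrix Q.Var Q.Var ℂ) (x : Q.Arr) : Q.Arr := fun h =>
  Q.chi (fun a => u (Sum.inr a) (Sum.inr a)) h • (Q.gau u * x h * star (Q.gau u))

/-- The action on jets (sequences of Taylor coefficients). -/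
def Qv.actJ (Q : Qv) (u : Matrix Q.Var Q.Var ℂ) (s : ℕ → Q.Arr) : ℕ → Q.Arr :=
  fun i => Q.actN u (s i)

/-- Pairs of a loop (by its Fourier coefficients) and a jet. -/
abbrev Qv.Tr (Q : Qv) : Type := (ℤ → Q.Mat) × (ℕ → Q.Arr)

/-- The action on pairs. -/
def Qv.actR (Q : Qv) (u : Matrix Q.Var Q.Var ℂ) (p : Q.Tr) : Q.Tr :=
  (fun k => Q.gau u * p.1 k * star (Q.gau u), Q.actJ u p.2)

/-- The diagonal action on pairs of pairs. -/
def Qv.actRR (Q : Qv) (u : Matrix Q.Var Q.Var ℂ) (p : Q.Tr × Q.Tr) : Q.Tr × Q.Tr :=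
  (Q.actR u p.1, Q.actR u p.2)

/-- Ambient Borel quotient for a point. -/
abbrev Qv.YK (Q : Qv) : Type := Bor Q.KK ptAct

/-- Ambient Borel quotient for `N`. -/
abbrev Qv.YN (Q : Qv) : Type := Bor Q.KK Q.actN

/-- Ambient Borel quotient for jets. -/
abbrev Qv.YJ (Q : Qv) : Type := Bor Q.KK Q.actJ

/-- Ambient Borel quotient for pairs. -/
abbrev Qv.YR (Q : Qv) : Type := Bor Q.KK Q.actR

/-- Ambient Borel quotient for pairs of pairs. -/
abbrev Qv.YRR (Q : Qv) : Type := Bor Q.KK Q.actRR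

/-- The value at `z` of a loop with coefficients in degrees `-m, ..., m`. -/
def Qv.evl (Q : Qv) (m : ℕ) (γ : ℤ → Q.Mat) (z : ℂ) : Q.Mat :=
  ∑ k ∈ Finset.Icc (-(m : ℤ)) m, z ^ k • γ k

/-- Based polynomial loops in `∏ U (V i)` of degree at most `m`: the affine Grassmannian. -/
def Qv.Om (Q : Qv) (m : ℕ) : Set (ℤ → Q.Mat) :=
  {γ | (∀ k : ℤ, (m : ℤ) < |k| → γ k = 0) ∧ (∀ k a b, Q.vb a ≠ Q.vb b → γ k a b = 0) ∧
    (∀ k, k ≠ 0 → γ k none none = 0) ∧
    (∀ z : ℂ, ‖z‖ = 1 → Q.evl m γ z ∈ Matrix.unitaryGroup (Option (Fin Q.nB)) ℂ) ∧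
    Q.evl m γ 1 = 1}

/-- Jets of order `d`: the space `N[z]/z^d`. -/
def Qv.Jet (Q : Qv) (d : ℕ) : Set (ℕ → Q.Arr) :=
  {s | (∀ i, s i ∈ Q.NN) ∧ ∀ i, d ≤ i → s i = 0}

/-- The coefficient of `z^j` in `γ s γ⁻¹`. -/
def Qv.lact (Q : Qv) (m d : ℕ) (p : Q.Tr) (j : ℤ) : Q.Arr := fun h =>
  ∑ a ∈ Finset.Icc (-(m : ℤ)) m, ∑ b ∈ Finset.Icc (-(m : ℤ)) m, ∑ i ∈ Finset.range d,
    if a + i - b = j then p.1 a * p.2 i h * star (p.1 b) else 0

/-- The space of triples: `γ s` has no pole. -/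
def Qv.RR (Q : Qv) (m d : ℕ) : Set Q.Tr :=
  {p | p.1 ∈ Q.Om m ∧ p.2 ∈ Q.Jet d ∧ ∀ j : ℤ, j < 0 → Q.lact m d p j = 0}

/-- Borel approximations of an invariant set of pairs. -/
def Qv.BR (Q : Qv) (S : Set Q.Tr) (n : ℕ) : Set Q.YR :=
  BS Q.KK Q.actR S (St Q.lab n)

/-- Approximations of the classifying space of `K`. -/
def Qv.BK (Q : Qv) (n : ℕ) : Set Q.YK := BS Q.KK ptAct Set.univ (St Q.lab n)

/-- An equivariant Thom class of `N`. -/
def Qv.IsThom (Q : Qv) (τ : Fam Q.YN) : Prop :=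
  IsFam True (fun n => BS Q.KK Q.actN Q.NN (St Q.lab n)) τ ∧ Homog (2 * (Q.dimN : ℤ)) τ ∧
    ∀ n, ∀ e ∈ St Q.lab n, ¬ Cohom True Q.NN (pb (fun x => bmk Q.KK Q.actN (x, e)) (τ n)) 0

/-- The induced Thom class of `N[z]/z^d`. -/
def Qv.tauJ (Q : Qv) (τ : Fam Q.YN) (d : ℕ) : Fam Q.YJ :=
  Nat.rec (fun _ => one) (fun i t => cupF t (pbF (bmap Q.KK Q.actN (fun s => s i) id) τ)) d

/-- Families of functionals, one for each truncation `(m, d)`. -/
abbrev Qv.Fun (Q : Qv) : Type := ℕ → ℕ → Fam Q.YR → Fam Q.YK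

/-- A property that holds for all `m` large and `d ≥ 2 m`. -/
def Ev (P : ℕ → ℕ → Prop) : Prop := ∃ m₀ : ℕ, ∀ m d : ℕ, m₀ ≤ m → 2 * m ≤ d → P m d

/-- `φ` is an `H_K(pt)`-linear map `H_{K,c}(S) → H_K(pt)`. -/
def Qv.IsLin (Q : Qv) (S : Set Q.Tr) (φ : Fam Q.YR → Fam Q.YK) : Prop :=
  ∀ a, IsFam True (Q.BR S) a → IsFam False Q.BK (φ a) ∧
    (∀ b, IsFam True (Q.BR S) b → (FamEq True (Q.BR S) a b → FamEq False Q.BK (φ a) (φ b)) ∧
      FamEq False Q.BK (φ (a + b)) (φ a + φ b)) ∧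
    ∀ h, IsFam False Q.BK h → FamEq False Q.BK
      (φ (cupF (pbF (bmap Q.KK ptAct (fun _ => ()) id) h) a)) (cupF h (φ a))

/-- Representatives of equivariant Borel-Moore classes of the space of triples: linear
functionals compatible with restriction in `m` and with the Thom isomorphism in `d`. -/
def Qv.IsBM (Q : Qv) (τ : Fam Q.YN) (c : Q.Fun) : Prop :=
  Ev fun m d => Q.IsLin (Q.RR m d) (c m d) ∧
    (∀ a, IsFam True (Q.BR (Q.RR (m + 1) d)) a → 2 * (m + 1) ≤ d →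
      FamEq False Q.BK (c (m + 1) d a) (c m d a)) ∧
    ∀ a, IsFam True (Q.BR (Q.RR m d)) a → FamEq False Q.BK
      (c m (d + 1) (cupF
        (pbF (bmap Q.KK Q.actR (fun p => (p.1, fun i => if i < d then p.2 i else 0)) id) a)
        (pbF (bmap Q.KK Q.actN (fun p => p.2 d) id) τ))) (c m d a)

/-- Equality of Borel-Moore classes. -/
def Qv.BMEq (Q : Qv) (c c' : Q.Fun) : Prop :=
  Ev fun m d => ∀ a, IsFam True (Q.BR (Q.RR m d)) a → FamEq False Q.BK (c m d a) (c' m d a)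

/-- The unit: the fundamental class of the fibre over the constant loop. -/
def Qv.IsOne (Q : Qv) (τ : Fam Q.YN) (c : Q.Fun) : Prop :=
  Ev fun m d => ∀ a, IsFam True (Q.BR (Q.RR m d)) a →
    FamEq True (Q.BR {p | p.1 = (fun k => if k = 0 then 1 else 0) ∧ p.2 ∈ Q.Jet d}) a
      (cupF (pbF (bmap Q.KK ptAct (fun _ => ()) id) (c m d a))
        (pbF (bmap Q.KK Q.actJ Prod.snd id) (Q.tauJ τ d)))

/-- The squared norm of a jet. -/
def Qv.nrm (Q : Qv) (d : ℕ) (s : ℕ → Q.Arr) : ℝ :=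
  ∑ i ∈ Finset.range d, ∑ h, ∑ k, ∑ l, ‖s i h k l‖ ^ 2

/-- `ω` is the Gysin image of `β` for the zero set `C` of the section `σ : Y → B` of a vector bundle
with total space `B`, Thom class `t₀` and `ε`-ball bundles `ball ε`. -/
def IsGysin {Y Z : Type} [TopologicalSpace Y] [TopologicalSpace Z] (A C : Set Y) (B : Set Z)
    (ball : ℝ → Set Z) (σ : Y → Z) (t₀ : Coch Z) (β ω : Coch Y) : Prop :=
  ∃ (ε : ℝ) (a : Coch Y) (t : Coch Z), 0 < ε ∧ Adm True A a ∧ Cohom True C a β ∧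
    (∀ y ∈ supp A (dd a), σ y ∉ ball ε) ∧ Cocycle True B t ∧ Cohom True B t t₀ ∧
    supp B t ⊆ ball ε ∧ Cohom True A ω (cup a (pb σ t))

/-- The section `s₁ - γ₂ s₂` of `N[z]/z^{d₁}` over the product. -/
def Qv.sec (Q : Qv) (m₂ d₁ d₂ : ℕ) (p : Q.Tr × Q.Tr) : ℕ → Q.Arr :=
  fun i => if i < d₁ then p.1.2 i - Q.lact m₂ d₂ p.2 i else 0

/-- The multiplication map `(γ₁, γ₂, s) ↦ (γ₁ γ₂, s)`. -/
def Qv.mlt (Q : Qv) (m₁ : ℕ) (p : Q.Tr × Q.Tr) : Q.Tr :=
  (fun k => ∑ a ∈ Finset.Icc (-(m₁ : ℤ)) m₁, p.1.1 a * p.2.1 (k - a), p.2.2)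

/-- `c` is the convolution product of `c₁` and `c₂`. -/
def Qv.IsConv (Q : Qv) (τ : Fam Q.YN) (c₁ c₂ c : Q.Fun) : Prop :=
  ∃ m₀ : ℕ, ∀ m₁ m₂ d₁ d₂ : ℕ, m₀ ≤ m₁ → m₀ ≤ m₂ → 2 * m₁ ≤ d₁ → d₁ + 2 * m₂ ≤ d₂ →
    ∀ b, IsFam True (Q.BR (Q.RR (m₁ + m₂) d₂)) b →
    ∀ (N : ℕ) (α β : Fin N → Fam Q.YR),
      (∀ j, IsFam True (Q.BR (Q.RR m₁ d₁)) (α j) ∧ IsFam True (Q.BR (Q.RR m₂ d₂)) (β j)) →
      (∀ n, IsGysin (BS Q.KK Q.actRR (Q.RR m₁ d₁ ×ˢ Q.RR m₂ d₂) (St Q.lab n))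
        (BS Q.KK Q.actRR {p | p ∈ Q.RR m₁ d₁ ×ˢ Q.RR m₂ d₂ ∧ Q.sec m₂ d₁ d₂ p = 0} (St Q.lab n))
        (BS Q.KK Q.actJ (Q.Jet d₁) (St Q.lab n))
        (fun ε => BS Q.KK Q.actJ {s | Q.nrm d₁ s < ε} Set.univ)
        (bmap Q.KK Q.actJ (Q.sec m₂ d₁ d₂) id) (Q.tauJ τ d₁ n)
        (pb (bmap Q.KK Q.actR (Q.mlt m₁) id) (b n))
        (∑ j, cup (pb (bmap Q.KK Q.actR Prod.fst id) (α j n))
          (pb (bmap Q.KK Q.actR Prod.snd id) (β j n)))) →
      FamEq False Q.BK (c (m₁ + m₂) d₂ b) (∑ j, cupF (c₁ m₁ d₁ (α j)) (c₂ m₂ d₂ (β j)))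

/-- `c` has weight `k` for the cocharacter `θ` of `π₁(G)^∨`: it lives on the components where
the loop `∏ (det γ_i)^{θ i}` has winding number `k`. -/
def Qv.HasWt (Q : Qv) (θ : Fin Q.nI → ℤ) (k : ℤ) (c : Q.Fun) : Prop :=
  Ev fun m d => ∀ a, IsFam True (Q.BR (Q.RR m d)) a →
    FamEq True (Q.BR {p | p ∈ Q.RR m d ∧ ∀ z : ℂ, ‖z‖ = 1 →
      ∏ i, (Matrix.det (Matrix.of fun a b => if Q.vb a = some i ∧ Q.vb b = some i then
        Q.evl m p.1 z a b else if a = b then 1 else 0)) ^ θ i = z ^ k}) a 0 →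
    FamEq False Q.BK (c m d a) 0

/-- `c` has cohomological degree `j` (relative to the fibre `N_O`). -/
def Qv.HasDeg (Q : Qv) (j : ℤ) (c : Q.Fun) : Prop :=
  Ev fun m d => ∀ (k : ℤ) a, IsFam True (Q.BR (Q.RR m d)) a → Homog k a →
    ∃ b, Homog (k + j - 2 * (d : ℤ) * Q.dimN) b ∧ FamEq False Q.BK (c m d a) b

/-- The action of `H_F(pt)` on Borel-Moore classes. -/
def Qv.smulA (Q : Qv) (u : Fam Q.YF) (c : Q.Fun) : Q.Fun := fun m d a =>
  cupF (pbF (bmap Q.FF ptAct id (fun e j t => e j (Sum.inr t))) u) (c m d a)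

/-- The action of `H_F(pt)` on the equivariant cohomology of the quiver variety. -/
def Qv.smulH (Q : Qv) (u : Fam Q.YF) (a : Fam Q.YM) :
    Fam Q.YM := cupF (pbF (bmap Q.FF ptAct (fun _ => ()) id) u) a

/-- The `ℂ`-algebra `R` is the set of valid representatives modulo `eqv`, with the given
multiplication and unit. -/
def Presents {ρ R : Type} [AddCommGroup ρ] [Module ℂ ρ] [CommRing R] [Algebra ℂ R]
    (valid : ρ → Prop) (eqv : ρ → ρ → Prop) (isMul : ρ → ρ → ρ → Prop) (isOne : ρ → Prop)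
    (cl : ρ → R) : Prop :=
  (∀ x : R, ∃ r, valid r ∧ cl r = x) ∧ ∀ r, valid r → (isOne r ↔ cl r = 1) ∧
    (∀ z : ℂ, valid (z • r) ∧ cl (z • r) = z • cl r) ∧
    ∀ r', valid r' → (eqv r r' ↔ cl r = cl r') ∧ valid (r + r') ∧ cl (r + r') = cl r + cl r' ∧
      ∀ r'', valid r'' → (isMul r r' r'' ↔ cl r'' = cl r * cl r')

/-- The Hikita-Nakajima statement for the stability `θ`, the cocharacter `ν` and the Thom class
`τ`: the convolution algebra `A` and the equivariant cohomology ring `H` exist, `A` is spanned by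
classes that are homogeneous for the degree and for all weights, and there is a graded
`H_F(pt)`-linear surjection of algebras `A → H` whose kernel is generated by the classes of nonzero
`ν`-weight and contains every class of nonzero topological charge. -/
def Qv.Hikita (Q : Qv) (θ ν : Fin Q.nI → ℤ) (τ : Fam Q.YN) : Prop :=
  ∃ (A : Type) (_ : CommRing A) (_ : Algebra ℂ A) (clA : Q.Fun → A)
    (H : Type) (_ : CommRing H) (_ : Algebra ℂ H) (clH : Fam Q.YM → H) (φ : A →ₐ[ℂ] H),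
    Presents (Q.IsBM τ) Q.BMEq (Q.IsConv τ) (Q.IsOne τ) clA ∧
    Presents (IsFam False (Q.BM θ)) (FamEq False (Q.BM θ))
      (fun a b c => FamEq False (Q.BM θ) c (cupF a b))
      (fun a => FamEq False (Q.BM θ) a fun _ => one) clH ∧
    Submodule.span ℂ {x | ∃ c j, Q.IsBM τ c ∧ Q.HasDeg j c ∧ (∀ η, ∃ k, Q.HasWt η k c) ∧
      clA c = x} = ⊤ ∧
    Function.Surjective φ ∧
    RingHom.ker φ = Ideal.span {x | ∃ c k, k ≠ 0 ∧ Q.IsBM τ c ∧ Q.HasWt ν k c ∧ clA c = x} ∧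
    ∀ c, Q.IsBM τ c →
      (∀ j, Q.HasDeg j c → ∃ a, IsFam False (Q.BM θ) a ∧ Homog j a ∧ φ (clA c) = clH a) ∧
      (∀ η k, k ≠ 0 → Q.HasWt η k c → φ (clA c) = 0) ∧
      ∀ u a, IsFam False Q.BF u → IsFam False (Q.BM θ) a → φ (clA c) = clH a →
        Q.IsBM τ (Q.smulA u c) ∧ IsFam False (Q.BM θ) (Q.smulH u a) ∧
          φ (clA (Q.smulA u c)) = clH (Q.smulH u a)

end Pool.Agent.HK
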